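import Mathlib
import Pool.Agent.H.MP_480559_an.A

open MeasureTheory Filter Topology Real Finset
open scoped ContDiff
open Pool.Agent.H.MP_480559_an

namespace Pool.Agent.Results.MP_480559_an.Reverse

def Sl (σ : ℝ) (s : T → ℝ) : Prop := Continuous s ∧ ∀ z, 3 ≤ s z ∧ s z ≤ 6 ∧
  s (f σ z) = dc (1 / 12) 1 (f σ z).1 + s z / (1 + dc (1 / 6) σ z.2 * s z)

lemma q (w) : 3 ≤ dc (1 / 12) 1 w ∧ dc (1 / 12) 1 w ≤ 5 := bd (by norm_num [abs_of_pos]) abs_one w

lemma coh [MeasurableSpace T] [BorelSpace T] {σ} {μ : Measure T} [IsProbabilityMeasure μ]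
    (h : MeasurePreserving (f σ) μ μ) {A B W : T → ℝ} (b : Continuous B) (c : Continuous W)
    (e : ∀ z, A z = B z + W (f σ z) - W z) : ∫ z, A z ∂μ = ∫ z, B z ∂μ := by
  have i (W : T → ℝ) (h : Continuous W) : Integrable W μ :=
    h.integrable_of_hasCompactSupport (.of_compactSpace _)
  have j : Integrable (fun z => W (f σ z)) μ := i _ (c.comp (cf σ))
  simp only [e]
  rw [integral_sub (by exact (i _ b).add j) (i _ c), integral_add (i _ b) j, cob h c, add_sub_cancel_right]

section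
variable {σ : ℝ} (hσ : |σ| = 1) {s r : T → ℝ} (hs : Sl σ s) (hr : Sl (-σ) r)
include hσ hs

lemma big (z : T) (w : Circle) : 10 ≤ 1 + dc (1 / 6) σ w * s z := by
  nlinarith [bd (c := 1 / 6) (by norm_num [abs_of_pos]) hσ w, hs.2 z]

lemma du (v : V) : fderiv ℝ (F σ) v (1, s (pr v)) =
    (1 + dc (1 / 6) σ (pr v).2 * s (pr v)) • ((1 : ℝ), s (pr (F σ v))) := by
  have := big hσ hs (pr v) (pr v).2
  rw [dF, ← (diff σ).2.2, (hs.2 _).2.2]
  ext
  · simp
  · simp only [Prod.smul_snd, smul_eq_mul]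
    rw [mul_add (1 + _), mul_div_cancel₀ _ (by positivity)]; ring

omit hs
include hr

omit hσ in
lemma rK (z : T) : r (K z) = dc (1 / 12) 1 z.1 + r (K (f σ z)) / (1 + dc (1 / 6) σ z.2 * r (K (f σ z))) := by
  have := (hr.2 (K (f σ z))).2.2
  rwa [gKf, show (K (f σ z)).2 = z.2⁻¹ by rw [Kf], dcinv] at this

lemma big' (z : T) (w : Circle) : 10 ≤ 1 + dc (1 / 6) σ w * r z := by
  nlinarith [bd (c := 1 / 6) (by norm_num [abs_of_pos]) hσ w, hr.2 z]

include hs

lemma ano : Anosov (F σ) (fun z => (1, s z)) fun z => (1, dc (1 / 12) 1 z.1 - r (K z)) := by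
  have d := (diff σ).1.differentiable (by simp)
  have d' := (diff σ).2.1.differentiable (by simp)
  refine ⟨fun z => LinearIndependent.pair_iff.2 fun a b e => ?_, contr d (by
    have := hr.1; have := cK; fun_prop) (fun z => abs_le.2 ⟨by linarith [q z.1, hr.2 (K z)],
    by linarith [q z.1, hr.2 (K z)]⟩) fun v => ⟨(1 + dc (1 / 6) σ (pr v).2 * r (K (f σ (pr v))))⁻¹, ?_, ?_⟩,
    contr d' hs.1 (fun z => abs_le.2 ⟨by linarith [hs.2 z], (hs.2 z).2.1⟩) fun v => ?_⟩
  · have e1 : a + b = 0 := by simpa using congrArg Prod.fst e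
    have e2 : a * s z + b * (dc (1 / 12) 1 z.1 - r (K z)) = 0 := by simpa using congrArg Prod.snd e
    have : a = 0 := (mul_eq_zero.1 (show a * (s z - dc (1 / 12) 1 z.1 + r (K z)) = 0 by
      linear_combination e2 - (dc (1 / 12) 1 z.1 - r (K z)) * e1)).resolve_right
      (by linarith [q z.1, hr.2 (K z), hs.2 z])
    exact ⟨this, by linarith⟩
  · have := big' hσ hr (K (f σ (pr v))) (pr v).2
    rw [abs_of_pos (by positivity), one_div (2 : ℝ)]; gcongr; linarith
  · have := big' hσ hr (K (f σ (pr v))) (pr v).2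
    rw [dF, ← (diff σ).2.2, rK hr (pr v)]
    generalize dc (1 / 6) σ (pr v).2 = p at *
    generalize r (K (f σ (pr v))) = R at *
    have : 1 + p * R ≠ 0 := by positivity
    have : 1 + R * p ≠ 0 := by rwa [mul_comm]
    ext <;> simp only [Prod.smul_snd, Prod.smul_fst, smul_eq_mul] <;> field_simp <;> ring
  · obtain ⟨v, rfl⟩ := (F σ).surjective v
    have := big hσ hs (pr v) (pr v).2
    refine ⟨(1 + dc (1 / 6) σ (pr v).2 * s (pr v))⁻¹, by
      rw [abs_of_pos (by positivity), one_div (2 : ℝ)]; gcongr; linarith, ?_⟩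
    rw [Equiv.symm_apply_apply, eq_inv_smul_iff₀ (by positivity), ← map_smul, ← du hσ hs,
      ← ContinuousLinearMap.comp_apply, ← fderiv_comp v (d' _) (d _)]
    simp

variable [MeasurableSpace T] [BorelSpace T]

omit hr in
lemma ipot (t : ℝ) {μ : Measure T} [IsProbabilityMeasure μ] (h : MeasurePreserving (f σ) μ μ) :
    ∫ z, pot (F σ) (fun z => (1, s z)) t z ∂μ = -t * ∫ z, log (1 + dc (1 / 6) σ z.2 * s z) ∂μ := by
  have := hs.1
  have c : Continuous fun z => log (en (1, s z)) :=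
    .log (by unfold en; fun_prop) fun z => (one_pos.trans_le (en_one _)).ne'
  have d : Continuous fun z : T => log (1 + dc (1 / 6) σ z.2 * s z) :=
    .log (by fun_prop) fun z => by linarith [big hσ hs z z.2]
  rw [← coh h d c fun z => rfl, ← integral_const_mul]
  congr 1 with z
  have := du hσ hs (sec z)
  have b := big hσ hs z z.2
  have := en_one (s z)
  have := en_one (s (f σ z))
  rw [← (diff σ).2.2, psec] at *
  simp only [pot, *, en_smul]
  rw [log_div (by positivity) (by positivity), log_mul (by positivity) (by positivity), abs_of_pos (by positivity)]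

lemma ple (t : ℝ) : pres (f σ) (pot (F σ) (fun z => (1, s z)) t) ≤
    pres (f (-σ)) (pot (F (-σ)) (fun z => (1, r z)) t) := by
  refine iSup_le fun μ => iSup₂_le fun _ h => ?_
  obtain ⟨a, b⟩ := rev h (cf (-σ)).measurable cK.measurable (gKf σ) fun z => by simp [K]
  have := Measure.isProbabilityMeasure_map (μ := μ) cK.aemeasurable
  refine le_iSup_of_le (μ.map K) (le_iSup₂_of_le this a (add_le_add b (le_of_eq ?_)))
  have := hs.1; have := hr.1; have := cK; have := cf σ
  have p (z) : 0 < s z - dc (1 / 12) 1 z.1 + r (K z) := by linarith [q z.1, hr.2 (K z), hs.2 z]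
  have c : Continuous fun z => log (s z - dc (1 / 12) 1 z.1 + r (K z)) := .log (by fun_prop) fun z => (p z).ne'
  have d : Continuous fun z : T => log (1 + dc (1 / 6) σ z.2 * s z) :=
    .log (by fun_prop) fun z => by linarith [big hσ hs z z.2]
  have e : Continuous fun z : T => log (1 + dc (1 / 6) (-σ) z.2 * r z) :=
    .log (by fun_prop) fun z => by linarith [big (by simpa) hr z z.2]
  rw [ipot hσ hs t h, ipot (by simpa) hr t a, integral_map cK.aemeasurable e.aestronglyMeasurable,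
    ← cob h (W := fun z => log (1 + dc (1 / 6) (-σ) (K z).2 * r (K z))) (e.comp cK)]
  congr 2
  refine (coh h d c fun z => ?_).symm
  have a := big hσ hs z z.2
  have b := big' hσ hr (K (f σ z)) z.2
  have := p z
  have := p (f σ z)
  simp only [show (K (f σ z)).2 = z.2⁻¹ by rw [Kf], dcinv]
  rw [← log_mul (by positivity) (by positivity), ← log_div (by positivity) (by positivity)]
  congr 1
  rw [eq_div_iff (by positivity), (hs.2 z).2.2, rK hr z]
  generalize dc (1 / 6) σ z.2 = p at *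
  generalize r (K (f σ z)) = R at *
  have : 1 + R * p ≠ 0 := by rw [mul_comm]; positivity
  have : 1 + s z * p ≠ 0 := by rw [mul_comm]; positivity
  field_simp; ring

end

lemma lat {x y : V → V} (hx : Continuous x) (hy : Continuous y) (e : ∀ v, pr (x v) = pr (y v)) :
    ∃ a b : ℤ, ∀ v, x v = y v + (a * (2 * π), b * (2 * π)) := by
  have (x y : V → ℝ) (hx : Continuous x) (hy : Continuous y) (e : ∀ v, Circle.exp (x v) = .exp (y v)) :
      ∃ a : ℤ, ∀ v, x v = y v + a * (2 * π) := by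
    choose m hm using fun v => Circle.exp_eq_exp.1 (e v)
    have : Continuous m := Int.isClosedEmbedding_coe_real.isEmbedding.continuous_iff.2
      (((hx.sub hy).div_const (2 * π)).congr fun v => by simp [hm v])
    exact ⟨m 0, fun v => by rw [hm v, (IsLocallyConstant.iff_continuous m).2 this |>.apply_eq_of_preconnectedSpace v 0]⟩
  obtain ⟨a, ha⟩ := this _ _ hx.fst hy.fst fun v => congrArg Prod.fst (e v)
  obtain ⟨b, hb⟩ := this _ _ hx.snd hy.snd fun v => congrArg Prod.snd (e v)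
  exact ⟨a, b, fun v => Prod.ext (ha v) (hb v)⟩

lemma per {h H} (d : Diff h H) : ∃ a b c e : ℤ, ∀ (m n : ℤ) v, H (v + (m * (2 * π), n * (2 * π))) =
    H v + ((a * m + b * n : ℤ) * (2 * π), (c * m + e * n : ℤ) * (2 * π)) := by
  have c := d.1.continuous
  have (w : V) (hw : ∀ v, pr (v + w) = pr v) : ∃ a b : ℤ, ∀ (m : ℤ) v, H (v + m • w) = H v +
      m • ((a : ℝ) * (2 * π), (b : ℝ) * (2 * π)) := by
    obtain ⟨a, b, e⟩ := lat (x := fun v => H (v + w)) (by fun_prop) c fun v => by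
      rw [← d.2.2, hw, d.2.2]
    refine ⟨a, b, fun m v => ?_⟩
    induction m using Int.induction_on with
    | zero => simp
    | succ m ih => rw [add_smul, one_smul, ← add_assoc, e, ih, add_smul, one_smul, add_assoc]
    | pred m ih =>
      rw [sub_smul, sub_smul, one_smul, one_smul, ← add_sub_assoc, ← add_sub_assoc, ← ih, eq_sub_iff_add_eq,
        ← e, sub_add_cancel]
  obtain ⟨a, c, p⟩ := this (2 * π, 0) fun v => by simp [pr, Circle.exp_add]
  obtain ⟨b, e, r⟩ := this (0, 2 * π) fun v => by simp [pr, Circle.exp_add]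
  refine ⟨a, b, c, e, fun m n v => ?_⟩
  rw [show v + (m * (2 * π), n * (2 * π)) = v + m • (2 * π, 0) + n • (0, 2 * π) by ext <;> simp, r, p]
  ext <;> simp <;> ring

lemma php (c σ y) (n : ℤ) : ph c σ (y + n * (2 * π)) = ph c σ y + (4 * n : ℤ) * (2 * π) := by
  simp [ph]; ring

lemma ph4 (c σ) (n : ℤ) : ph c σ (n * (π / 2)) = n * (2 * π) := by
  have := sin_two_mul (n * (π / 2))
  rw [show 2 * (n * (π / 2)) = n * π by ring, sin_int_mul_pi] at this
  simp only [ph, al]
  linear_combination (-c / 2 * (cos (n * (π / 2)) + 2 * σ * sin (n * (π / 2)))) * this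

def tb (σ : ℤ) (n : ZMod 4) : ℤ := if n = 0 then 1 else if n = 1 then -2 * σ else if n = 2 then -1 else 2 * σ

lemma dc4 (c : ℝ) (σ n : ℤ) : dc c σ (.exp (n * (π / 2))) = 4 + c * tb σ n := by
  rw [← Int.mul_ediv_add_emod n 4]
  have : ((4 * (n / 4) + n % 4 : ℤ) : ℝ) * (π / 2) = (n % 4 : ℤ) * (π / 2) + (n / 4 : ℤ) * (2 * π) := by
    push_cast; ring
  rw [this, Circle.exp_add, Circle.exp_int_mul_two_pi, mul_one, Int.cast_add, Int.cast_mul,
    show ((4 : ℤ) : ZMod 4) = 0 from rfl, zero_mul, zero_add]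
  simp only [dc, da, Circle.coe_exp, Complex.exp_ofReal_mul_I_re, Complex.exp_ofReal_mul_I_im]
  have h : n % 4 = 0 ∨ n % 4 = 1 ∨ n % 4 = 2 ∨ n % 4 = 3 := by omega
  rcases h with h | h | h | h <;> rw [h]
  · simp [tb]
  · simp [tb, show (1 : ZMod 4) ≠ 0 by decide]
  · simp [show (2 : ℝ) * (π / 2) = π by ring, show tb σ 2 = -1 from rfl]
  · simp [show (3 : ℝ) * (π / 2) = π / 2 + π by ring, show tb σ 3 = 2 * σ from rfl]

lemma fin : ∀ u v x y : ZMod 4, ∀ u' v' : ZMod 4, u * u' + v * v' = 1 → v * u' + u * v' = 0 →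
    ¬ ∀ i j, (24 + tb 1 j) * (48 + tb 1 i) = (24 + tb (-1) (u * j + v * i - x)) * (48 + tb 1 (v * j + u * i - y)) := by
  decide +kernel

lemma inj {c σ : ℝ} (hc : |c| ≤ 1 / 6) (hσ : |σ| = 1) : Function.Injective (ph c σ) :=
  (strictMono_of_deriv_pos fun y => by rw [(dph c σ y).deriv]; linarith [bd hc hσ (.exp y)]).injective

lemma Fp (σ) (m n : ℤ) (v : V) : F σ (v + (m * (2 * π), n * (2 * π))) =
    F σ v + ((m + 4 * n : ℤ) * (2 * π), (4 * m + 17 * n : ℤ) * (2 * π)) := by
  have : v.1 + m * (2 * π) + (ph (1 / 6) σ v.2 + (4 * n : ℤ) * (2 * π)) =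
      v.1 + ph (1 / 6) σ v.2 + (m + 4 * n : ℤ) * (2 * π) := by push_cast; ring
  ext <;> simp only [F, Equiv.coe_fn_mk, Prod.fst_add, Prod.snd_add, php, this]
  push_cast; ring

lemma non {h H} (d : Diff h H) (e : ∀ z, h (f 1 z) = f (-1) (h z)) : False := by
  have p0 := two_pi_pos.ne'
  have cast {a b c e : ℤ} {w : V} (h : w + ((a : ℝ) * (2 * π), (b : ℝ) * (2 * π)) =
      w + ((c : ℝ) * (2 * π), (e : ℝ) * (2 * π))) : a = c ∧ b = e := by simpa using h
  obtain ⟨a, b, c, k, p⟩ := per d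
  obtain ⟨a', b', c', k', p'⟩ := per (h := h.symm) (H := H.symm) ⟨d.2.1, d.1, fun v => by
    rw [Equiv.symm_apply_eq, d.2.2, Equiv.apply_symm_apply]⟩
  obtain ⟨x, y, r⟩ := lat (x := fun v => H (F 1 v)) (y := fun v => F (-1) (H v))
    (d.1.continuous.comp (diff 1).1.continuous) ((diff (-1)).1.continuous.comp d.1.continuous) fun v => by
      rw [← d.2.2, ← (diff 1).2.2, e, d.2.2, (diff (-1)).2.2]
  have cm (m n : ℤ) := r (0 + (m * (2 * π), n * (2 * π)))
  simp only [Fp, p, r, add_right_comm _ ((x : ℝ) * (2 * π), (y : ℝ) * (2 * π))] at cm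
  replace cm := fun m n => cast (add_right_cancel (cm m n))
  have iv (m n : ℤ) := p' (a * m + b * n) (c * m + k * n) (H 0)
  simp only [← p, Equiv.symm_apply_apply] at iv
  obtain rfl : c = b := by have := (cm 1 0).1; omega
  obtain rfl : k = a + 4 * c := by have := (cm 1 0).2; omega
  have f4 : (4 : ZMod 4) = 0 := rfl
  refine fin a c x y a' b' ?_ ?_ fun i j => ?_
  · simpa [mul_comm] using congrArg (Int.cast (R := ZMod 4)) (cast (iv 1 0)).1.symm
  · simpa [mul_comm, f4] using congrArg (Int.cast (R := ZMod 4)) (cast (iv 0 1)).1.symm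
  obtain ⟨i, rfl⟩ := ZMod.intCast_surjective i
  obtain ⟨j, rfl⟩ := ZMod.intCast_surjective j
  let z : V := (i * (π / 2), j * (π / 2))
  have z1 : F 1 z = z + (j * (2 * π), (i + 4 * j : ℤ) * (2 * π)) := by
    ext <;> simp only [F, z, Equiv.coe_fn_mk, Prod.fst_add, Prod.snd_add, php, ph4]
    push_cast; ring
  have w := r z
  rw [z1, p] at w
  have w1 : (H z).2 = (a * j + c * (i + 4 * j) - x : ℤ) * (π / 2) := inj (c := 1 / 6) (σ := -1)
    (by norm_num [abs_of_pos]) (by simp) (by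
      rw [ph4]; have := congrArg Prod.fst w; simp only [F] at this; simp at this ⊢; linarith)
  have w2 : (H z).1 + ph (1 / 6) (-1) (H z).2 = (c * j + (a + 4 * c) * (i + 4 * j) - y : ℤ) * (π / 2) :=
    inj (c := 1 / 12) (σ := 1) (by norm_num [abs_of_pos]) (by simp) (by
      rw [ph4]; have := congrArg Prod.snd w; simp only [F] at this; simp at this ⊢; linarith)
  have dH := d.1.differentiable (by simp)
  have t (u : V) : fderiv ℝ H z (fderiv ℝ (F 1) z u) = fderiv ℝ (F (-1)) (H z) (fderiv ℝ H z u) := by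
    have : fderiv ℝ H (F 1 z) = fderiv ℝ H z := by
      rw [z1, ← fderiv_comp_add_right, funext (p _ _), fderiv_add_const]
    rw [← this, ← ContinuousLinearMap.comp_apply, ← fderiv_comp z (dH _) ((diff 1).1.differentiable
      (by simp) _), show H ∘ F 1 = _ from funext r, fderiv_add_const, this, ← ContinuousLinearMap.comp_apply,
      ← fderiv_comp z ((diff (-1)).1.differentiable (by simp) _) (dH _)]
    rfl
  have o (u : V) (hu : fderiv ℝ H z u = 0) : u = 0 := by
    have := congrArg (fderiv ℝ H.symm (H z)) hu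
    rw [← ContinuousLinearMap.comp_apply, ← fderiv_comp z (d.2.1.differentiable (by simp) _) (dH _)] at this
    simpa using this
  set M := fderiv ℝ H z
  have l (s t : ℝ) : M (s, t) = s • M (1, 0) + t • M (0, 1) := by rw [← map_smul, ← map_smul, ← map_add]; simp
  have D : (M (1, 0)).1 * (M (0, 1)).2 - (M (0, 1)).1 * (M (1, 0)).2 ≠ 0 := fun D => by
    have u := o ((M (0, 1)).2, -(M (1, 0)).2) (by rw [l]; ext <;> simp <;> linarith)
    have v := o ((M (0, 1)).1, -(M (1, 0)).1) (by rw [l]; ext <;> simp <;> linarith)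
    simp only [Prod.mk_eq_zero] at u v
    simpa using o (0, 1) (Prod.ext v.1 u.1)
  have t1 := t (1, 0)
  have t2 := t (0, 1)
  rw [dF, dF, l, (diff 1).2.2, (diff (-1)).2.2, z1] at t1 t2
  have g1 := dc4 (1 / 6) 1 j
  have g2 := dc4 (1 / 12) 1 i
  have g3 := dc4 (1 / 6) (-1) (a * j + c * (i + 4 * j) - x)
  have g4 := dc4 (1 / 12) 1 (c * j + (a + 4 * c) * (i + 4 * j) - y)
  rw [← w1] at g3
  rw [← w2] at g4
  simp only [Int.cast_one, Int.cast_neg, Int.cast_sub, Int.cast_add, Int.cast_mul, Int.cast_ofNat, f4,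
    zero_mul, add_zero] at g1 g2 g3 g4
  simp only [pr, F, z, Equiv.coe_fn_mk, Prod.fst_add, Circle.exp_add (i * (π / 2) : ℝ),
    Circle.exp_int_mul_two_pi, mul_one, g1, g2, g3, g4, Prod.ext_iff, Prod.smul_fst, Prod.smul_snd,
    Prod.snd_add, smul_eq_mul] at t1 t2
  apply Int.cast_injective (α := ℝ)
  apply mul_left_cancel₀ D
  push_cast
  linear_combination 72 * ((M (0, 1)).2 * t1.1 - (M (0, 1)).1 * t1.2 - (M (1, 0)).2 * t2.1 + (M (1, 0)).1 * t2.2)

theorem result [MeasurableSpace T] [BorelSpace T] : ∃ (f g : Equiv.Perm T) (F G : Equiv.Perm V)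
    (u s u' s' : T → V), Diff f F ∧ Diff g G ∧ MeasurePreserving F ∧ MeasurePreserving G ∧
    Anosov F u s ∧ Anosov G u' s' ∧ (∃ f' g' : C(T, T), ⇑f' = f ∧ ⇑g' = g ∧ f'.Homotopic g') ∧
    (∀ t, pres f (pot F u t) = pres g (pot G u' t)) ∧
    ¬ ∃ (h : Equiv.Perm T) (H : Equiv.Perm V), Diff h H ∧ ∀ z, h (f z) = g (h z) := by
  obtain ⟨s, hs⟩ := slope (σ := 1) abs_one
  obtain ⟨r, hr⟩ := slope (σ := -1) (by simp)
  have hs' : Sl (- -1) s := by rwa [neg_neg]
  have m (σ) : MeasurePreserving (F σ) := by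
    have (φ : ℝ → ℝ) (h : Continuous φ) : MeasurePreserving fun p : V => (p.1, p.2 + φ p.1) :=
      (MeasurePreserving.id volume).skew_product (g := fun a b => b + φ a) (by fun_prop)
        (.of_forall fun a => map_add_right_eq_self _ _)
    exact (this _ (cph (1 / 12) 1).continuous).comp (Measure.measurePreserving_swap.comp
      ((this _ (cph (1 / 6) σ).continuous).comp Measure.measurePreserving_swap))
  refine ⟨f 1, f (-1), F 1, F (-1), _, _, _, _, diff 1, diff (-1), m 1, m (-1), ano abs_one hs hr,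
    ano (by simp) hr hs', ⟨⟨_, cf 1⟩, ⟨_, cf (-1)⟩, rfl, rfl, ⟨⟨⟨fun p => f (1 - 2 * p.1) p.2, ?_⟩,
    fun z => by simp, fun z => by norm_num⟩⟩⟩, fun t => le_antisymm (ple abs_one hs hr t)
    (by simpa using ple (by simp) hr hs' t), fun ⟨h, H, d, e⟩ => non d e⟩
  have : Continuous fun p : unitInterval × T => ga (1 / 6) (1 - 2 * p.1) p.2.2 :=
    cga.comp (f := fun p : unitInterval × T => ((1 / 6 : ℝ), (1 - 2 * p.1 : ℝ), p.2.2)) (by fun_prop)
  have := cg (1 / 12) 1
  unfold f; dsimp; fun_prop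

end Pool.Agent.Results.MP_480559_an.Reverse
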